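import Mathlib
import Pool.Agent.W925.Cof4

set_option autoImplicit false

open scoped Topology

namespace Pool.Agent.Results.MP_3c0c60_lc.NoGDelta

/-- The topology of pointwise convergence on the group `S_∞` of all permutations of `ℕ`: the
subspace topology from the Baire space `ℕ → ℕ` (product of discrete spaces). -/
@[reducible] def pointwise : TopologicalSpace (Equiv.Perm ℕ) :=
  TopologicalSpace.induced (fun σ : Equiv.Perm ℕ => (σ : ℕ → ℕ)) inferInstance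

/-- A subgroup of `S_∞` is cofinitary if every non-identity element of it has only finitely many
fixed points. -/
def Cofinitary (G : Subgroup (Equiv.Perm ℕ)) : Prop :=
  ∀ g ∈ G, g ≠ 1 → {x : ℕ | g x = x}.Finite

/-- A maximal cofinitary group: a cofinitary subgroup of `S_∞` that no cofinitary subgroup of
`S_∞` properly contains. -/
def MaximalCofinitary (G : Subgroup (Equiv.Perm ℕ)) : Prop :=
  Cofinitary G ∧ ∀ H : Subgroup (Equiv.Perm ℕ), G ≤ H → Cofinitary H → H = G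

/-- A set `X` of permutations is (lightface) `Π⁰₁`, or effectively closed: it is the intersection
of `S_∞` with the set of infinite branches of a computable tree on `ℕ` (a decidable, prefix-closed
set of finite sequences of naturals). -/
def IsPi01 (X : Set (Equiv.Perm ℕ)) : Prop :=
  ∃ T : List ℕ → Prop, ComputablePred T ∧
    (∀ s t : List ℕ, s <+: t → T t → T s) ∧
    ∀ σ : Equiv.Perm ℕ, σ ∈ X ↔ ∀ n : ℕ, T ((List.range n).map σ)

/-- `τ` agrees with `σ` below `n`. -/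
def Agr (n : ℕ) (σ τ : Equiv.Perm ℕ) : Prop := ∀ i < n, τ i = σ i

/-- open sets, in terms of agreement -/
def Opn (U : Set (Equiv.Perm ℕ)) : Prop :=
  ∀ σ ∈ U, ∃ n, ∀ τ, Agr n σ τ → τ ∈ U

theorem opn_of_isOpen {U : Set (Equiv.Perm ℕ)} (hU : IsOpen[pointwise] U) : Opn U := by
  intro σ hσ
  obtain ⟨V, hV, rfl⟩ := isOpen_induced_iff.1 hU
  rw [isOpen_pi_iff] at hV
  obtain ⟨I, u, hu, hsub⟩ := hV (σ : ℕ → ℕ) hσ
  refine ⟨I.sup id + 1, fun τ hτ => ?_⟩
  apply hsub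
  intro i hi
  have hi' : i < I.sup id + 1 := Nat.lt_succ_of_le (Finset.le_sup (f := id) hi)
  have h1 := hτ i hi'
  show τ i ∈ u i
  rw [h1]
  exact (hu i hi).2

theorem apply_inv (σ : Equiv.Perm ℕ) (i : ℕ) : σ (σ⁻¹ i) = i := by
  rw [← Equiv.Perm.mul_apply, mul_inv_cancel, Equiv.Perm.one_apply]

theorem inv_apply (σ : Equiv.Perm ℕ) (i : ℕ) : σ⁻¹ (σ i) = i := by
  rw [← Equiv.Perm.mul_apply, inv_mul_cancel, Equiv.Perm.one_apply]

variable {G : Subgroup (Equiv.Perm ℕ)}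

/-- the closure of `G` -/
def Clo (G : Subgroup (Equiv.Perm ℕ)) : Set (Equiv.Perm ℕ) :=
  {τ | ∀ n, ∃ g ∈ G, Agr n τ g}

theorem both (τ : Equiv.Perm ℕ) (n : ℕ) :
    ∃ m, ∀ g, Agr m τ g → Agr n τ g ∧ Agr n τ⁻¹ g⁻¹ := by
  refine ⟨n + ((Finset.range n).sup (fun i => τ⁻¹ i)) + 1, fun g hag =>
    ⟨fun i hi => hag i (by omega), fun i hi => ?_⟩⟩
  have h1 : τ⁻¹ i ≤ (Finset.range n).sup (fun i => τ⁻¹ i) :=
    Finset.le_sup (f := fun i => τ⁻¹ i) (Finset.mem_range.2 hi)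
  have h2 := hag (τ⁻¹ i) (by omega)
  rw [apply_inv] at h2
  rw [Equiv.Perm.inv_eq_iff_eq, h2]

theorem clo_mul {σ τ : Equiv.Perm ℕ} (hσ : σ ∈ Clo G) (hτ : τ ∈ Clo G) : σ * τ ∈ Clo G := by
  intro n
  obtain ⟨h, hh, hag⟩ := hτ n
  obtain ⟨g, hg, hag'⟩ := hσ ((Finset.range n).sup (fun i => τ i) + 1)
  refine ⟨g * h, G.mul_mem hg hh, fun i hi => ?_⟩
  have h1 : τ i ≤ (Finset.range n).sup (fun i => τ i) :=
    Finset.le_sup (f := fun i => τ i) (Finset.mem_range.2 hi)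
  rw [Equiv.Perm.mul_apply, Equiv.Perm.mul_apply, hag i hi, hag' _ (by omega)]

theorem clo_inv {σ : Equiv.Perm ℕ} (hσ : σ ∈ Clo G) : σ⁻¹ ∈ Clo G := by
  intro n
  obtain ⟨m, hm⟩ := both σ n
  obtain ⟨g, hg, hag⟩ := hσ m
  exact ⟨g⁻¹, G.inv_mem hg, (hm g hag).2⟩

theorem sub_clo {g : Equiv.Perm ℕ} (hg : g ∈ G) : g ∈ Clo G := fun _ => ⟨g, hg, fun _ _ => rfl⟩

/-- Baire category inside the closure of `G`. -/
theorem baire {V : ℕ → Set (Equiv.Perm ℕ)} (hV : ∀ k, Opn (V k))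
    (hd : ∀ k, ∀ τ ∈ Clo G, ∀ n, ∃ ρ ∈ Clo G, ρ ∈ V k ∧ Agr n τ ρ) :
    ∃ ρ, ∀ k, ρ ∈ V k := by
  have hstep : ∀ k : ℕ, ∀ p : {p : Equiv.Perm ℕ × ℕ // p.1 ∈ Clo G},
      ∃ p' : {p : Equiv.Perm ℕ × ℕ // p.1 ∈ Clo G},
        Agr p.1.2 p.1.1 p'.1.1 ∧ Agr p.1.2 p.1.1⁻¹ p'.1.1⁻¹ ∧ p.1.2 < p'.1.2 ∧
          ∀ ρ, Agr p'.1.2 p'.1.1 ρ → ρ ∈ V k := by
    rintro k ⟨⟨τ, n⟩, hτ⟩
    obtain ⟨N, hN⟩ := both τ n
    obtain ⟨ρ, hρ, hρV, h1⟩ := hd k τ hτ N
    obtain ⟨h1, h2⟩ := hN ρ h1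
    obtain ⟨m, hm⟩ := hV k ρ hρV
    refine ⟨⟨⟨ρ, n + m + 1⟩, hρ⟩, h1, h2, by show n < n + m + 1; omega, fun ρ' hρ' => ?_⟩
    exact hm ρ' (fun i hi => hρ' i (by show i < n + m + 1; omega))
  choose step hs1 hs2 hs3 hs4 using hstep
  let s : ℕ → {p : Equiv.Perm ℕ × ℕ // p.1 ∈ Clo G} := fun k =>
    Nat.rec ⟨⟨1, 0⟩, sub_clo G.one_mem⟩ (fun k p => step k p) k
  have hs : ∀ k, s (k + 1) = step k (s k) := fun k => rfl
  have hN : ∀ k, k ≤ (s k).1.2 := by
    intro k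
    induction k with
    | zero => exact Nat.zero_le _
    | succ k ih =>
      have := hs3 k (s k)
      rw [← hs k] at this
      omega
  have hmono : ∀ k l, k ≤ l → (s k).1.2 ≤ (s l).1.2 := by
    intro k l hkl
    induction l, hkl using Nat.le_induction with
    | base => exact le_rfl
    | succ l _ ih =>
      have := hs3 l (s l)
      rw [← hs l] at this
      omega
  have hag : ∀ k l, k ≤ l → Agr (s k).1.2 (s k).1.1 (s l).1.1 ∧
      Agr (s k).1.2 (s k).1.1⁻¹ (s l).1.1⁻¹ := by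
    intro k l hkl
    induction l, hkl using Nat.le_induction with
    | base => exact ⟨fun _ _ => rfl, fun _ _ => rfl⟩
    | succ l hl ih =>
      have h1 := hs1 l (s l)
      have h2 := hs2 l (s l)
      rw [← hs l] at h1 h2
      have hm := hmono k l hl
      refine ⟨fun i hi => ?_, fun i hi => ?_⟩
      · rw [h1 i (by omega), ih.1 i hi]
      · rw [h2 i (by omega), ih.2 i hi]
  have hf : ∀ i l, i + 1 ≤ l → (s l).1.1 i = (s (i + 1)).1.1 i := by
    intro i l hl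
    exact (hag (i + 1) l hl).1 i (by have := hN (i + 1); omega)
  have hg : ∀ i l, i + 1 ≤ l → (s l).1.1⁻¹ i = (s (i + 1)).1.1⁻¹ i := by
    intro i l hl
    exact (hag (i + 1) l hl).2 i (by have := hN (i + 1); omega)
  let ρ : Equiv.Perm ℕ :=
    { toFun := fun i => (s (i + 1)).1.1 i
      invFun := fun i => (s (i + 1)).1.1⁻¹ i
      left_inv := fun i => by
        show (s ((s (i + 1)).1.1 i + 1)).1.1⁻¹ ((s (i + 1)).1.1 i) = i
        set l := (i + 1) + ((s (i + 1)).1.1 i + 1) with hl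
        rw [← hg _ l (by omega), ← hf i l (by omega), inv_apply]
      right_inv := fun i => by
        show (s ((s (i + 1)).1.1⁻¹ i + 1)).1.1 ((s (i + 1)).1.1⁻¹ i) = i
        set l := (i + 1) + ((s (i + 1)).1.1⁻¹ i + 1) with hl
        rw [← hf _ l (by omega), ← hg i l (by omega), apply_inv] }
  refine ⟨ρ, fun k => ?_⟩
  have h4 := hs4 k (s k)
  rw [← hs k] at h4
  refine h4 ρ (fun i hi => ?_)
  show (s (i + 1)).1.1 i = (s (k + 1)).1.1 i
  rw [← hf i (i + 1 + (k + 1)) (by omega), (hag (k + 1) (i + 1 + (k + 1)) (by omega)).1 i hi]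

/-- A subgroup which is a countable intersection of open sets is closed. -/
theorem closed_of_gdelta {U : ℕ → Set (Equiv.Perm ℕ)} (hU : ∀ k, Opn (U k))
    (hG : ∀ σ, σ ∈ G ↔ ∀ k, σ ∈ U k) {σ : Equiv.Perm ℕ} (hσ : σ ∈ Clo G) : σ ∈ G := by
  obtain ⟨ρ, hρ⟩ : ∃ ρ : Equiv.Perm ℕ,
      ∀ k, ρ ∈ (if k % 2 = 0 then U (k / 2) else {ρ | σ⁻¹ * ρ ∈ U (k / 2)}) := by
    refine baire (G := G) ?_ ?_
    · intro k
      split_ifs
      · exact hU _
      · intro τ hτ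
        obtain ⟨n, hn⟩ := hU _ _ hτ
        refine ⟨n, fun ρ hρ => hn _ (fun i hi => ?_)⟩
        rw [Equiv.Perm.mul_apply, Equiv.Perm.mul_apply, hρ i hi]
    · intro k τ hτ n
      split_ifs
      · obtain ⟨g, hg, hag⟩ := hτ n
        exact ⟨g, sub_clo hg, (hG g).1 hg _, hag⟩
      · obtain ⟨g, hg, hag⟩ := clo_mul (clo_inv hσ) hτ n
        refine ⟨σ * g, clo_mul hσ (sub_clo hg), ?_, fun i hi => ?_⟩
        · show σ⁻¹ * (σ * g) ∈ U (k / 2)
          rw [inv_mul_cancel_left]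
          exact (hG g).1 hg _
        · rw [Equiv.Perm.mul_apply, hag i hi, Equiv.Perm.mul_apply, apply_inv]
  have h1 : ρ ∈ G := (hG ρ).2 (fun k => by
    have := hρ (2 * k)
    simpa using this)
  have h2 : σ⁻¹ * ρ ∈ G := (hG _).2 (fun k => by
    have := hρ (2 * k + 1)
    have h3 : (2 * k + 1) / 2 = k := by omega
    have h4 : ¬ ((2 * k + 1) % 2 = 0) := by omega
    rw [if_neg h4, h3] at this
    exact this)
  have h3 := G.mul_mem h1 (G.inv_mem h2)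
  have h4 : ρ * (σ⁻¹ * ρ)⁻¹ = σ := by group
  rwa [h4] at h3

/-- No maximal cofinitary group contains its closure. -/
theorem not_clo_sub (hG : MaximalCofinitary G) (h : ∀ σ ∈ Clo G, σ ∈ G) : False := by
  obtain ⟨g, hg, hne, hinf⟩ := Pool.Agent.W925.Cof.exists_infinite_fix (G := G)
    (fun s hs => h s (fun n => by
      obtain ⟨g, hg, hgs⟩ := hs (Finset.range n)
      exact ⟨g, hg, fun i hi => hgs i (Finset.mem_range.2 hi)⟩))
    (Pool.Agent.W925.Cof.finOrb_of_maximal hG.1 hG.2)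
  exact hinf (hG.1 g hg hne)

theorem isOpen_opn {U : Set (Equiv.Perm ℕ)} (hU : Opn U) : IsOpen[pointwise] U := by
  rw [isOpen_induced_iff]
  refine ⟨{f | ∃ σ ∈ U, ∃ n, (∀ τ, Agr n σ τ → τ ∈ U) ∧ ∀ i < n, f i = σ i}, ?_, ?_⟩
  · rw [isOpen_pi_iff]
    rintro f ⟨σ, hσ, n, hn, hf⟩
    refine ⟨Finset.range n, fun i => {f i}, fun i _ => ⟨isOpen_discrete _, rfl⟩, ?_⟩
    intro g hg
    refine ⟨σ, hσ, n, hn, fun i hi => ?_⟩
    have : g i = f i := hg i (Finset.mem_coe.2 (Finset.mem_range.2 hi))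
    rw [this, hf i hi]
  · ext τ
    constructor
    · rintro ⟨σ, hσ, n, hn, hf⟩
      exact hn τ hf
    · intro hτ
      obtain ⟨n, hn⟩ := hU τ hτ
      exact ⟨τ, hτ, n, hn, fun _ _ => rfl⟩

theorem isClosed_of_isPi01 {X : Set (Equiv.Perm ℕ)} (hX : IsPi01 X) : IsClosed[pointwise] X := by
  obtain ⟨T, -, -, hT⟩ := hX
  rw [← @isOpen_compl_iff _ _ pointwise]
  apply isOpen_opn
  intro σ hσ
  have h1 : ¬ ∀ n : ℕ, T ((List.range n).map σ) := fun h => hσ ((hT σ).2 h)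
  push Not at h1
  obtain ⟨n, hn⟩ := h1
  refine ⟨n, fun τ hτ hτX => hn ?_⟩
  have h2 := (hT τ).1 hτX n
  have h3 : (List.range n).map τ = (List.range n).map σ :=
    List.map_congr_left (fun i hi => hτ i (List.mem_range.1 hi))
  rwa [h3] at h2

/-- **No maximal cofinitary group is `G_δ`; in particular none is `Π⁰₁` (Q2).**
Let `G` be a maximal cofinitary subgroup of the group `S_∞` of all permutations of `ℕ`. Then
* `G` is not a `Π⁰₁` subset of `S_∞`;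
* `G` is not a closed subset of `S_∞`;
* `G` is not even a `G_δ` subset (a countable intersection of open sets) of `S_∞`. -/
theorem result : ∀ G : Subgroup (Equiv.Perm ℕ), MaximalCofinitary G →
    ¬ IsPi01 (G : Set (Equiv.Perm ℕ)) ∧
    ¬ IsClosed[pointwise] (G : Set (Equiv.Perm ℕ)) ∧
    ¬ @IsGδ (Equiv.Perm ℕ) pointwise (G : Set (Equiv.Perm ℕ)) := by
  intro G hG
  have hcl : ¬ IsClosed[pointwise] (G : Set (Equiv.Perm ℕ)) := by
    intro hc
    refine not_clo_sub hG (fun σ hσ => ?_)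
    by_contra hn
    have ho : Opn ((G : Set (Equiv.Perm ℕ))ᶜ) :=
      opn_of_isOpen ((@isOpen_compl_iff _ _ pointwise).2 hc)
    obtain ⟨n, hn'⟩ := ho σ hn
    obtain ⟨g, hg, hag⟩ := hσ n
    exact hn' g hag hg
  refine ⟨fun h => hcl (isClosed_of_isPi01 h), hcl, fun h => ?_⟩
  obtain ⟨U, hU, hGU⟩ := (@isGδ_iff_eq_iInter_nat _ pointwise _).1 h
  refine not_clo_sub hG (fun σ hσ => ?_)
  refine closed_of_gdelta (U := U) (fun k => opn_of_isOpen (hU k)) (fun τ => ?_) hσ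
  constructor
  · intro hτ k
    have h1 : τ ∈ (G : Set (Equiv.Perm ℕ)) := hτ
    rw [hGU, Set.mem_iInter] at h1
    exact h1 k
  · intro hτ
    have h1 : τ ∈ (G : Set (Equiv.Perm ℕ)) := by
      rw [hGU, Set.mem_iInter]
      exact hτ
    exact h1

end Pool.Agent.Results.MP_3c0c60_lc.NoGDelta
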